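import Pool.Agent.Helper41.SQC.Goals

/-!
# Packet SQC-KM (MP_bb32d1_al)
-/

set_option autoImplicit false

namespace Pool.Agent.Helper87.SQC

open Pool.Agent.Helper41.SQC Pool.Agent.Helper19.SQ Pool.Agent.Helper34.SQ Pool.Agent.Helper41.SQ
  Pool.Agent.Helper4.SQ

/-- sum over the letters below `N` of the contents of a word with one more letter -/
lemma sum_cons (N j k : ℕ) (w : List ℕ) (hk : k < N) :
    ∑ m ∈ Finset.range N, pr j m * (((k :: w).count m : ℕ) : ℤ) =
      pr j k + ∑ m ∈ Finset.range N, pr j m * ((w.count m : ℕ) : ℤ) := by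
  have h1 : ∀ m ∈ Finset.range N, pr j m * (((k :: w).count m : ℕ) : ℤ) =
      (if k = m then pr j m else 0) + pr j m * ((w.count m : ℕ) : ℤ) := by
    intro m _
    rw [List.count_cons]
    by_cases h : k = m
    · simp [h]; ring
    · have h' : (k == m) = false := by simpa using h
      simp [h, h']
  rw [Finset.sum_congr rfl h1, Finset.sum_add_distrib, Finset.sum_ite_eq]
  simp [hk]

/-- weight of a word -/
lemma word (R : Type) [Ring R] [Algebra ℂ R] (N l : ℕ) (q : ℂ) (t t' E F K : ℕ → R) (hq : q ≠ 0)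
    (h : GlT N l q t t' E F K) (j : ℕ) : ∀ w : List ℕ, (∀ k ∈ w, k < N) →
    K j * (w.map F).prod = q ^ (-∑ m ∈ Finset.range N, pr j m * ((w.count m : ℕ) : ℤ)) •
      ((w.map F).prod * K j) := by
  intro w
  induction w with
  | nil => intro _; simp
  | cons k w ih =>
    intro hw
    have hk : k < N := hw k (by simp)
    have hw' : ∀ x ∈ w, x < N := fun x hx => hw x (by simp [hx])
    rw [sum_cons N j k w hk, neg_add, zpow_add₀ hq, List.map_cons, List.prod_cons, ← mul_assoc,
      h.KF, smul_mul_assoc, mul_assoc, ih hw', mul_smul_comm, smul_smul, mul_assoc]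

/-- **KM** -/
theorem c_km (h1 : S_MOW) : S_KM := by
  intro R _ _ N l q t t' E F K hP h j a
  have hq : q ≠ 0 := hP.prim.ne_zero (by have := hP.h3; omega)
  have hb : ∀ i j, ¬ (i < j ∧ j ≤ N) → a.1 i j = 0 := fun i j hij => (a.2 i j).2 hij
  have hm := h1 R N q F a.1 hb
  refine Submodule.span_induction (p := fun x _ => K j * x = q ^ wz N a.1 j • (x * K j))
    ?_ ?_ ?_ ?_ hm
  · rintro x ⟨w, hw, hc, rfl⟩
    rw [word R N l q t t' E F K hq h j w hw]
    congr 2
    unfold wz
    congr 1
    apply Finset.sum_congr rfl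
    intro m hm'
    rw [hc m (Finset.mem_range.mp hm')]
  · simp
  · intro x y _ _ hx hy
    rw [mul_add, hx, hy, add_mul, smul_add]
  · intro c x _ hx
    rw [mul_smul_comm, hx, smul_comm, smul_mul_assoc]

end Pool.Agent.Helper87.SQC
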